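import Pool.Agent.Y600.FB.Main4
import Pool.Agent.Y409.FB.Prim4
import Pool.Agent.Y217.FB.Ex4
import Pool.Agent.Y275.FB.Not4
import Pool.Agent.Y600.PPM.Sim
import Pool.Agent.Y338.FB.UI
import Pool.Agent.Y454.FB.Clock
import Pool.Agent.Y340.FB.POS
import Pool.Agent.Y908.FB.LE

/-!
# Every countable partial order embeds into the NP-intermediate CSPs of finitely bounded structures

`P ≠ NP` if and only if for every countable partial order `(I, ≤)` there are finitely bounded
structures `A i` (countable, with relations of arities between one and three) such that
`CSP (A i)` is `NP`-intermediate, `CSP (A i)` reduces to `CSP (A j)` by a polynomial-time many-one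
reduction if `i ≤ j`, and is not even polynomial-time Turing reducible to `CSP (A j)` otherwise.
No `CSP (A i)` is `NP`-hard under Turing reductions.

Idea. The library `H593R3.FBC` (starting result `IntermediateCSP`) attaches to a counter machine `m`
a finitely bounded structure whose CSP asks for satisfiability of formulas placed at depth `n`, for
the times `n` at which `m` is active. Here one primitive recursive search looks for a formula on
which a given oracle algorithm, with the CSP of the present flags followed by zeros as its oracle,
fails to decide satisfiability; the machines run this search again and again, with a mode which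
changes at every new start and runs through `0, ..., K - 1`, and are active in a prescribed set of
modes. The times of the new starts do not depend on `K`, so that the sets of active phases can be
any periodic sets; the free countable Boolean algebra of the periodic sets contains every countable
partial order. If all phases in which `m` is active are phases in which `m'` is active, the CSP of
`m` reduces to the one of `m'`: an instance is replaced by disjoint chains, one for each root.

The parts were proved by helper409 (`S_PRIM4`), helper217 (`S_EX4`), helper275 (`S_NOT4`),
helper338 (`S_UI`), helper454 (`S_CLOCK`), helper340 (`S_POS`) and helper908 (`S_LE`); first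
versions for many-one reductions by helper459 and helper686.
-/

set_option autoImplicit false

namespace Pool.Agent.Results.MP_9e35a6_lc.CountableOrders

open Pool.Agent.NPC Pool.Agent.H593R3.FBC
open Pool.Agent.H620R2.Gauge (IsP)
open Pool.Agent.Y600.FB (chi)

/-- **Every countable partial order embeds into the `NP`-intermediate CSPs of finitely bounded
structures.** -/
theorem result : (∃ L : Set (List Bool), InNP L ∧ ¬ InP L) ↔
    ∀ (I : Type) [Countable I] [PartialOrder I],
      ∃ (τ : I → List ℕ) (A : I → Type) (r : ∀ i, Rels (A i)),
        (∀ i, (∀ a ∈ τ i, 1 ≤ a ∧ a ≤ 3) ∧ Countable (A i) ∧ FinitelyBounded (τ i) (r i) ∧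
          NPIntermediate (CSP (τ i) (r i)) ∧
          ∃ L, InNP L ∧ ¬ IsP (chi (lang (CSP (τ i) (r i)))) L) ∧
        ∀ i j, (i ≤ j → Reduces (lang (CSP (τ i) (r i))) (lang (CSP (τ j) (r j)))) ∧
          (¬ i ≤ j → ¬ IsP (chi (lang (CSP (τ j) (r j)))) (lang (CSP (τ i) (r i)))) :=
  Y600.FB.full4 Pool.Agent.Y409.FB.t_PRIM4 Pool.Agent.Y217.FB.t_EX4 Pool.Agent.Y275.FB.t_NOT4
    Pool.Agent.Y600.PPM.t_RED4 Pool.Agent.Y454.FB.t_CLOCK Pool.Agent.Y340.FB.t_POS
    Pool.Agent.Y338.FB.t_UI Pool.Agent.Y908.FB.t_LE

end Pool.Agent.Results.MP_9e35a6_lc.CountableOrders
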